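import Mathlib
import Pool.Agent.R728.TH.Noeth

/-!
# Noetherian thin spaces are finite

A topological space `S` is thin if any two homeomorphic subsets of `S` are mapped onto each other
by a homeomorphism of `S` onto itself. No separation axiom is assumed. We prove that a thin space
which is Noetherian (every set is compact) is finite. For instance an infinite space with the
cofinite topology is not thin. The starting file `Hyperconnected` shows that infinite thin spaces
are irreducible.
-/

set_option autoImplicit false

open Set TopologicalSpace Pool.Agent.R728.TH

namespace Pool.Agent.Results.MP_52f683_gt.NotNoetherian

universe u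

/-- Every thin Noetherian space is finite. -/
theorem result (S : Type u) [TopologicalSpace S] [NoetherianSpace S]
    (hS : ∀ A B : Set S, Nonempty (A ≃ₜ B) → ∃ h : S ≃ₜ S, h '' A = B) : Finite S := by
  by_contra hfin
  haveI : Infinite S := not_finite_iff_infinite.1 hfin
  obtain ⟨-, -, -, h4⟩ := thin_main (S := S) hS
  exact h4 inferInstance

end Pool.Agent.Results.MP_52f683_gt.NotNoetherian
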